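import Pool.Agent.H.MP_f5ceca_al.S.LadDec

/-!
The dichotomy for all varieties.
-/

namespace Pool.Agent.H.MP_f5ceca_al.F

open Pool.Agent.H.MP_f5ceca_al.N (FA idn)
open Pool.Agent.H.MP_f5ceca_al.Conv

universe u

/-- The dichotomy. -/
theorem full {K : Type u} [Field K] [CharZero K] (κ : CField K)
    (S : Set (FreeAlgebra K ℕ)) : G.WPD κ.c S ↔ ¬ G.IncludesW S := by
  constructor
  · intro h hW
    exact G.not_wpd_of_includesW κ hW h
  · intro hW
    apply G.wpd_of_dec
    intro n R hR
    have hT := E.isT_idn (n := n) S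
    have htsi : G.IsTSI (idn S n) := fun a u b hu => hT.right b _ (hT.left a _ hu)
    have h1 : G.identities S n = ((idn S n : Submodule K (FA K n)) : Set (FA K n)) := rfl
    refine (Pool.Agent.H.MP_f5ceca_al.S.dec_idn κ hW n hR).of_eq fun P => ?_
    rw [h1, G.mem_span_iff_sup htsi, E.Bot_tsp]
    exact Iff.rfl

end Pool.Agent.H.MP_f5ceca_al.F
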